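import Pool.Agent.Y320.CM.Stm
import Pool.Agent.Helper206.BoxS.IoD

/-!
# Project CM: injective continuous self maps of the sphere are onto
-/

set_option autoImplicit false
open Filter Topology Metric Set

namespace Pool.Agent.Y438.CM

open Pool.Agent.Y320.CM

theorem surj : S_SURJ := by
  intro F hc hi
  by_contra hns
  rw [Function.Surjective] at hns
  push Not at hns
  obtain ⟨q0, hq0⟩ := hns
  have hfact : Fact (Module.finrank ℝ (EuclideanSpace ℝ (Fin 3)) = 2 + 1) :=
    ⟨by simp⟩
  let s := stereographic' 2 q0
  have hsrc : s.source = {q0}ᶜ := stereographic'_source q0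
  have hFs : ∀ x, F x ∈ s.source := fun x => by
    rw [hsrc]; exact hq0 x
  let h : Sph → EuclideanSpace ℝ (Fin 2) := fun x => s (F x)
  have hcont : Continuous h := by
    have h1 : ContinuousOn s s.source := s.continuousOn
    exact h1.comp_continuous hc hFs
  have hinj : Function.Injective h := by
    intro x y hxy
    exact hi (s.injOn (hFs x) (hFs y) hxy)
  have hopen : IsOpen (range h) := by
    rw [isOpen_iff_mem_nhds]
    rintro _ ⟨x, rfl⟩
    let t := stereographic' 2 (-x)
    have htsrc : t.source = {-x}ᶜ := stereographic'_source (-x)
    have httgt : t.target = univ := stereographic'_target (-x)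
    have hxt : x ∈ t.source := by
      rw [htsrc]
      have := ne_neg_of_mem_unit_sphere ℝ x
      simpa using this
    let g : EuclideanSpace ℝ (Fin 2) → EuclideanSpace ℝ (Fin 2) := fun y => h (t.symm y)
    have hgc : Continuous g := by
      apply hcont.comp
      have := t.continuousOn_symm
      rw [httgt] at this
      exact continuousOn_univ.mp this
    have hgi : Function.Injective g := by
      intro y z hyz
      have h1 : t.symm y = t.symm z := hinj hyz
      exact t.symm.injOn (by rw [OpenPartialHomeomorph.symm_source, httgt]; trivial)
        (by rw [OpenPartialHomeomorph.symm_source, httgt]; trivial) h1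
    have hmem := Pool.Agent.Helper206.BoxS.IoD.image_mem_nhds g (t x) 1 one_pos
      hgc.continuousOn hgi.injOn
    have hgx : g (t x) = h x := by
      show h (t.symm (t x)) = h x
      rw [t.left_inv hxt]
    rw [hgx] at hmem
    refine mem_of_superset hmem ?_
    rintro _ ⟨y, _, rfl⟩
    exact ⟨t.symm y, rfl⟩
  have : CompactSpace Sph := by
    infer_instance
  have hcomp : IsCompact (range h) := isCompact_range hcont
  have hclopen : IsClopen (range h) := ⟨hcomp.isClosed, hopen⟩
  have huniv : range h = univ := hclopen.eq_univ ⟨h q0, q0, rfl⟩
  rw [huniv] at hcomp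
  exact noncompact_univ (EuclideanSpace ℝ (Fin 2)) hcomp

end Pool.Agent.Y438.CM
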